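import Pool.Agent.KS6_10.Final
import Pool.Agent.KS6_10.MinCount
import Pool.Graph.R_pool_sql_team_seeded_b3bd081e.H313R3.GK.R

/-!
# Zero-free half planes for almost all elliptic curves

`E_{a,b} : y² = x³ + a x + b` runs over ALL elliptic curves over `ℚ`, ordered by height: `|a| ≤ X^{1/3}`,
`|b| ≤ X^{1/2}`.  For every `δ > 0` there is `κ > 0` such that for all of these curves but a proportion
`O(X^{-κ})` one has `X^{-δ} ≤ |L(E_{a,b}, s)| ≤ X^δ` for all `s` with `Re s ≥ 4/3 + δ`,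
`|Im s| ≤ X^κ`; in particular `L(E_{a,b}, s)` has no zero there.  (The critical line is `Re s = 1`, the
edge of absolute convergence is `Re s = 3/2`.)

The proof: a large sieve inequality for the sums `∑ₓ ((x³ + a x + b)/n)` on average over all `a`, `b` in
the box, in which `n` may be as large as `X^{1/2 + o(1)}` (completion in `a` and `b`, reciprocity,
Sobolev and Fejér majorants); the functional equation of the newform along a rotated ray; a mollifier;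
the three lines theorem.
-/

open Complex UpperHalfPlane MatrixGroups CongruenceSubgroup ModularForm

set_option autoImplicit false

namespace Pool.Agent.Results.MP_553913_nt.AlmostAllCurvesByHeight

/-- The coefficient `a_p` of `y² = x³ + a x + b` at a prime `p ∤ 2 (4a³ + 27b²)`: `p` minus the
number of pairs `(x, y)` modulo `p` with `y² ≡ x³ + a x + b (mod p)`. -/
noncomputable def ap (a b : ℤ) (p : ℕ) : ℤ :=
  (p : ℤ) - (((Finset.range p ×ˢ Finset.range p).filter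
    (fun xy : ℕ × ℕ => (p : ℤ) ∣ (xy.2 : ℤ) ^ 2 - ((xy.1 : ℤ) ^ 3 + a * (xy.1 : ℤ) + b))).card : ℤ)

/-- The `n`-th Fourier coefficient of `f`. -/
noncomputable def coef {N : ℕ} (f : CuspForm (Gamma0 N : Subgroup (GL (Fin 2) ℝ)) 2) (n : ℕ) : ℂ :=
  (qExpansion 1 f).coeff n

/-- `f ∈ S_2(Γ₀(N))` is the newform of `E : y² = x³ + a x + b` and `N` is the conductor of `E`: the
Fourier coefficients `c(n)` of `f` are real, `c(1) = 1`, they satisfy the Hecke relations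
`c(mn) = c(m) c(n)` for coprime `m`, `n` and `c(p^(j+2)) = c(p) c(p^(j+1)) - p c(p^j)` (without the
last term if `p ∣ N`), `f` is an eigenfunction of the Fricke involution,
`f(-1/(Nτ)) = -w N τ² f(τ)` with `w = ±1`, `c(p) = a_p(E)` and `p ∤ N` for all primes
`p ∤ 2 (4a³ + 27b²)`, and `N` divides `2⁸ 3⁵ (4a³ + 27b²)`.
By the modularity theorem such an `f` exists for every `E`, with `N` the conductor. -/
structure IsNewformOf (a b : ℤ) (N : ℕ) (f : CuspForm (Gamma0 N : Subgroup (GL (Fin 2) ℝ)) 2) :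
    Prop where
  one : coef f 1 = 1
  real : ∀ n, (coef f n).im = 0
  mul : ∀ m n : ℕ, Nat.Coprime m n → coef f (m * n) = coef f m * coef f n
  pow : ∀ p j : ℕ, p.Prime → coef f (p ^ (j + 2)) = coef f p * coef f (p ^ (j + 1)) -
      (if p ∣ N then 0 else (p : ℂ) * coef f (p ^ j))
  fricke : ∃ w : ℝ, (w = 1 ∨ w = -1) ∧ ∀ τ τ' : ℍ, (τ' : ℂ) * ((N : ℂ) * (τ : ℂ)) = -1 →
      f τ' = -(w : ℂ) * (N : ℂ) * (τ : ℂ) ^ 2 * f τ
  points : ∀ p : ℕ, p.Prime → ¬ ((p : ℤ) ∣ 2 * (4 * a ^ 3 + 27 * b ^ 2)) → coef f p = (ap a b p : ℂ)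
  good : ∀ p : ℕ, p.Prime → ¬ ((p : ℤ) ∣ 2 * (4 * a ^ 3 + 27 * b ^ 2)) → ¬ p ∣ N
  conductor : (N : ℤ) ∣ 2 ^ 8 * 3 ^ 5 * (4 * a ^ 3 + 27 * b ^ 2)

open Classical in
/-- `F` is the L-function of `E : y² = x³ + a x + b`, up to the Euler factors at the primes dividing
`2 (4a³ + 27b²)`: `F` is entire and `F(s) = ∏ (1 - a_p p^{-s} + p^{1-2s})⁻¹` for `Re s > 3/2`, the
product running over the primes `p ∤ 2 (4a³ + 27b²)`. -/
def IsLFunction (a b : ℤ) (F : ℂ → ℂ) : Prop :=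
  Differentiable ℂ F ∧ ∀ s : ℂ, 3 / 2 < s.re →
    HasProd (fun p : ℕ => if p.Prime ∧ ¬ ((p : ℤ) ∣ 2 * (4 * a ^ 3 + 27 * b ^ 2)) then
      (1 - (ap a b p : ℂ) * (p : ℂ) ^ (-s) + (p : ℂ) * (p : ℂ) ^ (-2 * s))⁻¹ else 1) (F s)

/-- All elliptic curves of height at most `X`: the pairs `(a, b)` with `|a| ≤ X^{1/3}`,
`|b| ≤ X^{1/2}`, `4a³ + 27b² ≠ 0` for which there is no prime `p` with `p⁴ ∣ a`, `p⁶ ∣ b`.  (Every
elliptic curve over `ℚ` is isomorphic to `y² = x³ + a x + b` for exactly one pair without such `p`.) -/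
def curves (X : ℝ) : Set (ℤ × ℤ) :=
  {ab | |(ab.1 : ℝ)| ≤ X ^ (1 / 3 : ℝ) ∧ |(ab.2 : ℝ)| ≤ X ^ (1 / 2 : ℝ) ∧
    4 * ab.1 ^ 3 + 27 * ab.2 ^ 2 ≠ 0 ∧
    ∀ p : ℕ, p.Prime → ¬ ((p : ℤ) ^ 4 ∣ ab.1 ∧ (p : ℤ) ^ 6 ∣ ab.2)}

/-- The exceptional pairs: the pairs `(a, b)`, minimal or not, with `|a| ≤ X^{1/3}`, `|b| ≤ X^{1/2}`,
`4a³ + 27b² ≠ 0` for which `X^{-δ} ≤ |L(E_{a,b}, s)| ≤ X^δ` fails for some `s` with
`Re s ≥ 4/3 + δ` and `|Im s| ≤ X^κ`. -/
def exceptional (δ κ X : ℝ) : Set (ℤ × ℤ) :=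
  {ab | |(ab.1 : ℝ)| ≤ X ^ (1 / 3 : ℝ) ∧ |(ab.2 : ℝ)| ≤ X ^ (1 / 2 : ℝ) ∧
    4 * ab.1 ^ 3 + 27 * ab.2 ^ 2 ≠ 0 ∧
    ∃ (N : ℕ) (f : CuspForm (Gamma0 N : Subgroup (GL (Fin 2) ℝ)) 2), IsNewformOf ab.1 ab.2 N f ∧
    ∃ F : ℂ → ℂ, IsLFunction ab.1 ab.2 F ∧
    ∃ s : ℂ, 4 / 3 + δ ≤ s.re ∧ |s.im| ≤ X ^ κ ∧ ¬ (X ^ (-δ) ≤ ‖F s‖ ∧ ‖F s‖ ≤ X ^ δ)}

/-- the coefficients as an arithmetic function -/
noncomputable def ca {N : ℕ} [NeZero N] (f : CuspForm (Gamma0 N : Subgroup (GL (Fin 2) ℝ)) 2) : ArithmeticFunction ℂ :=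
  ⟨fun n => coef f n, H313.GK.coeff_zero0 f⟩

theorem hasSum_f {N : ℕ} [NeZero N] (f : CuspForm (Gamma0 N : Subgroup (GL (Fin 2) ℝ)) 2) {z : ℂ} (hz : 0 < z.re) :
    HasSum (fun n : ℕ => coef f n * Complex.exp (-(2 * Real.pi * n * z))) (f (ofComplex (Complex.I * z))) := by
  have h := ModularForm.hasSum_qExpansion (Γ := (Gamma0 N : Subgroup (GL (Fin 2) ℝ))) (k := 2) f one_pos
    H313.GK.one_mem0 (ofComplex (Complex.I * z))
  have him : 0 < (Complex.I * z).im := by simpa using hz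
  convert h using 2 with m
  unfold coef
  congr 1
  rw [ofComplex_apply_of_im_pos him]
  unfold Function.Periodic.qParam
  rw [← Complex.exp_nat_mul]
  simp only
  push_cast
  congr 1
  have hI : Complex.I ^ 2 = -1 := Complex.I_sq
  linear_combination (-(2 * Real.pi * m * z) : ℂ) * hI

theorem cd_of {a b : ℤ} {N : ℕ} [NeZero N] {f : CuspForm (Gamma0 N : Subgroup (GL (Fin 2) ℝ)) 2} (hf : IsNewformOf a b N f) :
    ∃ (ε : ℝ) (c : ArithmeticFunction ℂ) (G : ℂ → ℂ), Pool.Agent.KS6_10.CD a b N ε c G := by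
  obtain ⟨w, hw, hfr⟩ := hf.fricke
  obtain ⟨B, hB0, hB⟩ := H313.GK.coeff_bound0 f
  have hNpos : 0 < N := Nat.pos_of_ne_zero (NeZero.ne N)
  have hNc : (N:ℂ) ≠ 0 := by exact_mod_cast NeZero.ne N
  refine ⟨w, ca f, fun z => f (ofComplex (Complex.I * z)), ?_, ?_, hf.points, hf.good, ?_⟩
  · refine ⟨hNpos, hw, H313.GK.coeff_zero0 f, fun n => ?_, ⟨B, hB0, fun n => ?_⟩, fun z hz => hasSum_f f hz, fun z hz => ?_⟩
    · show (starRingEnd ℂ) (coef f n) = coef f n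
      apply Complex.ext
      · simp
      · simp [hf.real n]
    · have := hB n
      rwa [pow_one] at this
    · have hz0 : z ≠ 0 := fun h => by rw [h] at hz; simp at hz
      have him1 : 0 < (Complex.I * z).im := by simpa using hz
      have him2 : 0 < (Complex.I * (1 / (N * z))).im := by
        rw [Complex.I_mul_im, one_div, mul_inv, ← Complex.ofReal_natCast, ← Complex.ofReal_inv, Complex.re_ofReal_mul, Complex.inv_re]
        have h1 : 0 < Complex.normSq z := Complex.normSq_pos.2 hz0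
        have h2 : (0:ℝ) < N := by exact_mod_cast hNpos
        positivity
      have h1 := hfr (ofComplex (Complex.I * z)) (ofComplex (Complex.I * (1 / (N * z)))) (by
        rw [ofComplex_apply_of_im_pos him1, ofComplex_apply_of_im_pos him2]
        simp only
        have hI : Complex.I ^ 2 = -1 := Complex.I_sq
        field_simp
        exact hI)
      rw [h1]
      congr 1
      rw [ofComplex_apply_of_im_pos him1]
      simp only
      rw [mul_pow, Complex.I_sq]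
      ring
  · refine ⟨⟨hf.one, fun {m n} h => hf.mul m n h⟩, hf.real, hf.pow, ⟨B, fun n => ?_⟩⟩
    have := hB n
    rwa [pow_one] at this
  · have := hf.conductor
    norm_num at this
    exact this

theorem isLF_of {a b : ℤ} {F : ℂ → ℂ} (hF : IsLFunction a b F) : Pool.Agent.KS6_10.IsLF a b F := by
  refine ⟨hF.1, fun s hs => ?_⟩
  convert hF.2 s hs
  rfl

/-- **Zero-free half planes for almost all elliptic curves.** -/
theorem result : ∀ δ : ℝ, 0 < δ → ∃ κ : ℝ, 0 < κ ∧ ∃ C : ℝ, 0 < C ∧ ∀ X : ℝ, 1 ≤ X →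
    (exceptional δ κ X).Finite ∧
    ((exceptional δ κ X).ncard : ℝ) ≤ C * X ^ (-κ) * ((curves X).ncard : ℝ) := by
  intro δ hδ
  obtain ⟨κ, hκ, C, hC, h⟩ := Pool.Agent.KS6_10.main_count δ hδ
  refine ⟨κ, hκ, 8 * C, by positivity, fun X hX => ?_⟩
  have hX0 : 0 < X := by linarith
  obtain ⟨hfin, hcard⟩ := h X hX
  have hsub : exceptional δ κ X ⊆ Pool.Agent.KS6_10.Exc δ κ X := by
    rintro ab ⟨h1, h2, h3, N, f, hf, F, hF, s, hs⟩
    have hN : NeZero N := ⟨fun h0 => by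
      have h4 := hf.conductor
      rw [h0, Nat.cast_zero, zero_dvd_iff] at h4
      exact mul_ne_zero (by norm_num) h3 h4⟩
    obtain ⟨ε, c, G, hcd⟩ := cd_of hf
    exact ⟨h1, h2, h3, N, ε, c, G, hcd, F, isLF_of hF, s, hs⟩
  have hcfin : (curves X).Finite := by
    refine ((Pool.Agent.KS6_10.bxA X ×ˢ Pool.Agent.KS6_10.bxB X).finite_toSet).subset fun ab hab => ?_
    have := Pool.Agent.KS6_10.mem_box hX hab.1 hab.2.1
    exact_mod_cast Finset.mem_product.2 this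
  have hmin := Pool.Agent.KS6_10.min_count X hX hcfin
  refine ⟨hfin.subset hsub, ?_⟩
  have h5 : ((exceptional δ κ X).ncard : ℝ) ≤ ((Pool.Agent.KS6_10.Exc δ κ X).ncard : ℝ) := by
    exact_mod_cast Set.ncard_le_ncard hsub hfin
  have h6 : X ^ (5 / 6 - κ) = X ^ (-κ) * X ^ (5 / 6 : ℝ) := by
    rw [← Real.rpow_add hX0]; congr 1; ring
  have h7 : 0 ≤ C * X ^ (-κ) := by positivity
  calc ((exceptional δ κ X).ncard : ℝ) ≤ C * X ^ (5 / 6 - κ) := h5.trans hcard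
    _ = C * X ^ (-κ) * X ^ (5 / 6 : ℝ) := by rw [h6]; ring
    _ ≤ C * X ^ (-κ) * (8 * ((curves X).ncard : ℝ)) := mul_le_mul_of_nonneg_left (by
        have : X ^ (5 / 6 : ℝ) / 8 ≤ ((curves X).ncard : ℝ) := hmin
        linarith) h7
    _ = _ := by ring

end Pool.Agent.Results.MP_553913_nt.AlmostAllCurvesByHeight
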