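import Pool.Agent.KS6_29.HS.Newf
import Pool.Graph.R_seed8.Y812.QTN11
import Pool.Graph.R_seed8.Y812.TM.Four

/-!
# The de Bruijn–Newman constants of elliptic curve L-functions tend to zero with the conductor

For the completed L-function `Λ(E, s) = N^(s/2) (2 π)^(-s) Γ(s) L(E, s)` of an elliptic curve over `ℚ`
let `Λ_t = exp (t D²) Λ`, `D = d/ds`, `t ≥ 0`.  (With `s = 1 + i z` this is the usual deformation
`Ξ_t(z) = ∫ Φ(u) exp (t u²) exp (i z u) du`.)  The Riemann hypothesis for `L(E, s)` says that for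
`t = 0` all zeros have `Re s = 1`; de Bruijn proved this for `t ≥ 1/8`, and the infimum of all such
`t` is the de Bruijn–Newman constant of `E`.  We prove that it is at most `(1 + o(1)) / log N`, where
`N` is the conductor of `E`, uniformly in `E`.  More precisely, for each `δ > 0` there is `t₁ > 0`,
which depends on `δ` only, such that for all `E`, all `0 < t ≤ t₁` and all zeros `s` of `Λ_t` with
`t log (N (2 + |Im s|)²) ≥ 1 + δ` one has `Re s = 1`, and `s` is a simple zero.  The same is proved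
for all twists of `E` by primitive Dirichlet characters `χ` of conductor `q` prime to `N`, with
`N q²` in place of `N`.

The proof (files `Pool.Agent.KS6_29.HS`): on a horizontal line `Λ_t(1 + y + i x)` is
`P(y) + w conj (P(-y))` with `P(y) = ∫_{v > 0} exp (-v²/4t) Λ(1 + y + i x + v) dv`, by the functional
equation.  The integrand of `P` has a narrow maximum at the distance `≈ t log (N (2 + |x|)²)` from the
critical line, i.e. beyond the edge `Re s = 3/2` of the critical strip when `t log (N (2 + |x|)²) > 1/2`;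
the contribution of the critical strip is bounded by the convexity bound, and it is negligible when
`t log (N (2 + |x|)²) ≥ 1 + δ`.  It follows that `|P(y)|` is increasing near `y = 0` and that
`|P(-y)| < |P(y)|` for all `y > 0`.
-/

open Complex UpperHalfPlane MatrixGroups CongruenceSubgroup

set_option autoImplicit false

namespace Pool.Agent.Results.MP_553913_nt.HeatFlowConductor

/-- The coefficient `a_p` of `E : y² = x³ + a x + b` at a prime `p ∤ 2 (4a³ + 27b²)`: `p` minus the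
number of pairs `(x, y)` modulo `p` with `y² = x³ + a x + b`. -/
noncomputable def ap (a b : ℤ) (p : ℕ) : ℤ :=
  (p : ℤ) - Nat.card {x : ZMod p × ZMod p //
    x.2 ^ 2 = x.1 ^ 3 + (a : ZMod p) * x.1 + (b : ZMod p)}

/-- The `n`-th Fourier coefficient of `f`. -/
noncomputable def coef {N : ℕ} (f : CuspForm (Gamma0 N : Subgroup (GL (Fin 2) ℝ)) 2) (n : ℕ) : ℂ :=
  (qExpansion 1 f).coeff n

/-- `f ∈ S_2(Γ₀(N))` is the newform of the elliptic curve `E : y² = x³ + a x + b`: the Fourier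
coefficients `c(n)` of `f` are real with `c(1) = 1`, they satisfy the Hecke relations
`c(mn) = c(m) c(n)` for coprime `m`, `n` and `c(p^(j+2)) = c(p) c(p^(j+1)) - p c(p^j)` (without the
last term if `p ∣ N`), `|c(p)| ≤ 2 √p` for `p ∤ N` and `|c(p)| ≤ 1` for `p ∣ N`, `f` is an
eigenfunction of the Fricke involution: `f(-1/(Nτ)) = -w N τ² f(τ)` with `w = ±1`, and
`c(p) = a_p(E)` for all primes `p ∤ 2 (4a³ + 27b²)`. -/
structure IsFormOf (a b : ℤ) (N : ℕ) (f : CuspForm (Gamma0 N : Subgroup (GL (Fin 2) ℝ)) 2) :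
    Prop where
  one : coef f 1 = 1
  real : ∀ n, (coef f n).im = 0
  mul : ∀ m n : ℕ, Nat.Coprime m n → coef f (m * n) = coef f m * coef f n
  pow : ∀ p j : ℕ, p.Prime → coef f (p ^ (j + 2)) = coef f p * coef f (p ^ (j + 1)) -
      (if p ∣ N then 0 else (p : ℂ) * coef f (p ^ j))
  good : ∀ p : ℕ, p.Prime → ¬ p ∣ N → ‖coef f p‖ ≤ 2 * Real.sqrt p
  bad : ∀ p : ℕ, p.Prime → p ∣ N → ‖coef f p‖ ≤ 1
  fricke : ∃ w : ℝ, (w = 1 ∨ w = -1) ∧ ∀ τ τ' : ℍ, (τ' : ℂ) * ((N : ℂ) * (τ : ℂ)) = -1 →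
    f τ' = -(w : ℂ) * (N : ℂ) * (τ : ℂ) ^ 2 * f τ
  points : ∀ p : ℕ, p.Prime → ¬ (p : ℤ) ∣ 2 * (4 * a ^ 3 + 27 * b ^ 2) →
    ¬ p ∣ N ∧ coef f p = (ap a b p : ℂ)

/-- The Euler factor of `L(E ⊗ χ, s)` at the prime `p`:
`(1 - χ(p) c(p) p^(-s) + χ(p)² p^(1-2s))⁻¹` for `p ∤ N`, `(1 - χ(p) c(p) p^(-s))⁻¹` for `p ∣ N`. -/
noncomputable def factor {N : ℕ} (f : CuspForm (Gamma0 N : Subgroup (GL (Fin 2) ℝ)) 2) (q : ℕ)
    (χ : DirichletCharacter ℂ q) (s : ℂ) (p : ℕ) : ℂ :=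
  (1 - χ (p : ZMod q) * coef f p * (p : ℂ) ^ (-s) +
    (if p ∣ N then 0 else χ (p : ZMod q) ^ 2 * (p : ℂ) ^ (1 - 2 * s)))⁻¹

/-- `Λ` is the completed L-function of `E ⊗ χ`: an entire function, equal to
`(√N q / 2π)^s Γ(s) L(E ⊗ χ, s)` for `Re s > 3/2`, where `L(E ⊗ χ, s)` is the Euler product. (These
properties determine `Λ`; for `q = 1` it is the completed L-function of `E`.) -/
structure IsCompleted {N : ℕ} (f : CuspForm (Gamma0 N : Subgroup (GL (Fin 2) ℝ)) 2) (q : ℕ)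
    (χ : DirichletCharacter ℂ q) (Λ : ℂ → ℂ) : Prop where
  entire : Differentiable ℂ Λ
  euler : ∀ s : ℂ, 3 / 2 < s.re → ∃ L : ℂ, HasProd (fun p : Nat.Primes => factor f q χ s p) L ∧
    Λ s = ((Real.sqrt N * q / (2 * Real.pi) : ℝ) : ℂ) ^ s * Complex.Gamma s * L

/-- The heat flow `(exp (t D²) Λ)(s)`, `D = d/ds`: this is
`(4 π t)^(-1/2) ∫ exp (-v² / (4 t)) Λ(s + v) dv`. -/
noncomputable def heat (Λ : ℂ → ℂ) (t : ℝ) (s : ℂ) : ℂ :=
  ((Real.sqrt (4 * Real.pi * t))⁻¹ : ℝ) * ∫ v : ℝ, (Real.exp (-v ^ 2 / (4 * t)) : ℂ) * Λ (s + v)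

/-- The de Bruijn–Newman constant: the infimum of all times `t > 0` such that all zeros of
`exp (t D²) Λ` are on the line `Re s = 1`. -/
noncomputable def newman (Λ : ℂ → ℂ) : ℝ :=
  sInf {t : ℝ | 0 < t ∧ ∀ s : ℂ, heat Λ t s = 0 → s.re = 1}

/-! ### Translations -/

theorem heat_eq (Λ : ℂ → ℂ) (t : ℝ) (s : ℂ) :
    heat Λ t s = ((Real.sqrt (4 * Real.pi * t))⁻¹ : ℝ) * KS6_29.HS.flow Λ t s := rfl

theorem c_ne {t : ℝ} (ht : 0 < t) : (((Real.sqrt (4 * Real.pi * t))⁻¹ : ℝ) : ℂ) ≠ 0 := by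
  have : 0 < Real.sqrt (4 * Real.pi * t) := Real.sqrt_pos.2 (by positivity)
  exact_mod_cast (inv_pos.2 this).ne'

theorem heat_zero {Λ : ℂ → ℂ} {t : ℝ} (ht : 0 < t) {s : ℂ} (h : heat Λ t s = 0) :
    KS6_29.HS.flow Λ t s = 0 := by
  rw [heat_eq] at h
  exact (mul_eq_zero.1 h).resolve_left (c_ne ht)

theorem heat_deriv {Λ : ℂ → ℂ} {t : ℝ} (ht : 0 < t) {s : ℂ} (h : deriv (KS6_29.HS.flow Λ t) s ≠ 0) :
    deriv (heat Λ t) s ≠ 0 := by
  have e : heat Λ t = fun s => (((Real.sqrt (4 * Real.pi * t))⁻¹ : ℝ) : ℂ) * KS6_29.HS.flow Λ t s :=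
    funext fun s => heat_eq Λ t s
  rw [e, deriv_const_mul_field]
  exact mul_ne_zero (c_ne ht) h

theorem lamf_eq {N : ℕ} (f : CuspForm (Gamma0 N : Subgroup (GL (Fin 2) ℝ)) 2)
    (hr : ∀ n, (coef f n).im = 0) (p : ℕ) (hp : p.Prime) (s : ℂ) :
    (W388.lamf f p : ℂ) * (p : ℂ) ^ (-(s - 1 / 2)) = coef f p * (p : ℂ) ^ (-s) := by
  have hp0 : (0 : ℝ) < p := by exact_mod_cast hp.pos
  have hpc : (p : ℂ) ≠ 0 := by exact_mod_cast hp.ne_zero
  have hc : coef f p = ((coef f p).re : ℂ) := by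
    apply Complex.ext
    · simp
    · simp [hr p]
  unfold W388.lamf
  rw [hc]
  unfold coef
  rw [show -(s - 1 / 2) = -s + (1 / 2 : ℂ) by ring, Complex.cpow_add _ _ hpc]
  push_cast
  rw [Complex.ofReal_cpow hp0.le]
  have e : ((((2 : ℝ) - 1) / 2 : ℝ) : ℂ) = (1 / 2 : ℂ) := by push_cast; norm_num
  rw [e]
  have hne : (p : ℂ) ^ (1 / 2 : ℂ) ≠ 0 := by
    rw [Ne, Complex.cpow_eq_zero_iff]
    exact fun h => hpc h.1
  rw [Complex.ofReal_natCast]
  field_simp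

theorem factor_shift {N : ℕ} (f : CuspForm (Gamma0 N : Subgroup (GL (Fin 2) ℝ)) 2)
    (hr : ∀ n, (coef f n).im = 0) (q : ℕ)
    (χ : DirichletCharacter ℂ q) (s : ℂ) (p : ℕ) (hp : p.Prime) :
    factor f q χ s p = (1 - χ (p : ZMod q) * (W388.lamf f p : ℂ) * (p : ℂ) ^ (-(s - 1 / 2)) +
      (if p ∣ N then 0 else χ (p : ZMod q) ^ 2 * (p : ℂ) ^ (-2 * (s - 1 / 2))))⁻¹ := by
  unfold factor
  rw [mul_assoc (χ (p : ZMod q)) (W388.lamf f p : ℂ), lamf_eq f hr p hp s, ← mul_assoc,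
    show (-2 * (s - 1 / 2) : ℂ) = 1 - 2 * s by ring]

/-- The curves for which the modularity is proved in the library. -/
theorem isFormOf_of {a b : ℤ} {N : ℕ} {f : CuspForm (Gamma0 N : Subgroup (GL (Fin 2) ℝ)) 2}
    (h : Pool.Agent.Y19.QT.IsFormOf a b N f) : IsFormOf a b N f where
  one := h.one
  real := h.real
  mul := h.mul
  pow := h.pow
  good := h.good
  bad := h.bad
  fricke := h.fricke
  points := h.points

/-- **Main theorem.** (1) All quadratic twists of `X₀(11) : y² = x³ - 13392 x - 1080432` and of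
`X₀(14) : y² = x³ + 5805 x - 285714` have a newform.

(2) For every `δ > 0` there is `t₁ > 0` such that for every elliptic curve `E : y² = x³ + a x + b`
over `ℚ`, with newform `f ∈ S_2(Γ₀(N))`, and for every primitive Dirichlet character `χ` of conductor
`q` prime to `N` (`q = 1`: the curve itself), the completed L-function `Λ` of `E ⊗ χ` exists, has a
functional equation, and:

* for `0 < t ≤ t₁`, every zero `s` of `exp (t D²) Λ` with `t log (N q² (2 + |Im s|)²) ≥ 1 + δ`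
  is on the line `Re s = 1` and is simple;
* if `(1 + δ) / log (N q²) ≤ t₁`, then all zeros of `exp (t D²) Λ` are on the line `Re s = 1`, and
  simple, for `t = (1 + δ) / log (N q²)`, and the de Bruijn–Newman constant of `E ⊗ χ` is at most
  `(1 + δ) / log (N q²)`. -/
theorem result :
    (∀ g : ℤ, g ≠ 0 →
      (∃ (N : ℕ) (_ : NeZero N) (f : CuspForm (Gamma0 N : Subgroup (GL (Fin 2) ℝ)) 2),
        IsFormOf (-13392 * g ^ 2) (-1080432 * g ^ 3) N f) ∧
      (∃ (N : ℕ) (_ : NeZero N) (f : CuspForm (Gamma0 N : Subgroup (GL (Fin 2) ℝ)) 2),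
        IsFormOf (5805 * g ^ 2) (-285714 * g ^ 3) N f)) ∧
    ∀ δ : ℝ, 0 < δ → ∃ t₁ : ℝ, 0 < t₁ ∧
      ∀ (a b : ℤ) (_hE : 4 * a ^ 3 + 27 * b ^ 2 ≠ 0) (N : ℕ) [NeZero N]
        (f : CuspForm (Gamma0 N : Subgroup (GL (Fin 2) ℝ)) 2), IsFormOf a b N f →
      ∀ (q : ℕ) [NeZero q] (χ : DirichletCharacter ℂ q), χ.IsPrimitive → Nat.Coprime q N →
      ∃ Λ : ℂ → ℂ, IsCompleted f q χ Λ ∧
        (∃ w : ℂ, ‖w‖ = 1 ∧ ∀ s, Λ (2 - s) = w * (starRingEnd ℂ) (Λ ((starRingEnd ℂ) s))) ∧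
        (∀ t : ℝ, 0 < t → t ≤ t₁ → ∀ s : ℂ, heat Λ t s = 0 →
          1 + δ ≤ t * Real.log (N * q ^ 2 * (2 + |s.im|) ^ 2) →
          s.re = 1 ∧ deriv (heat Λ t) s ≠ 0) ∧
        (1 < N * q ^ 2 → (1 + δ) / Real.log (N * q ^ 2) ≤ t₁ →
          (∀ s : ℂ, heat Λ ((1 + δ) / Real.log (N * q ^ 2)) s = 0 →
            s.re = 1 ∧ deriv (heat Λ ((1 + δ) / Real.log (N * q ^ 2))) s ≠ 0) ∧
          newman Λ ≤ (1 + δ) / Real.log (N * q ^ 2)) := by
  refine ⟨fun g hg => ⟨?_, ?_⟩, ?_⟩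
  · obtain ⟨N, f, hf⟩ := Pool.Agent.Y812.QTN11.twists11 g hg
    exact ⟨N, ⟨hf.pos.ne'⟩, f, isFormOf_of hf⟩
  · obtain ⟨N, f, hf⟩ := Pool.Agent.Y812.TM.twists14 g hg
    exact ⟨N, ⟨hf.pos.ne'⟩, f, isFormOf_of hf⟩
  intro δ hδ
  obtain ⟨t₁, ht₁, H⟩ := KS6_29.HS.newf_zeros (δ := min δ 1) (by positivity) (min_le_right _ _)
    (κ := 0) le_rfl
  refine ⟨t₁, ht₁, ?_⟩
  intro a b _hE N _ f hf q _ χ hχ hq
  obtain ⟨w, hw, hfr⟩ := hf.fricke
  have hN0 : (0 : ℝ) ≤ (N : ℝ) := Nat.cast_nonneg N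
  have hNpos : 0 < N := Nat.pos_of_ne_zero (NeZero.ne N)
  have hsq : ((Real.sqrt N : ℝ) : ℂ) ^ 2 = (N : ℂ) := by
    have h1 : (Real.sqrt N) ^ 2 = (N : ℝ) := Real.sq_sqrt hN0
    exact_mod_cast congrArg (fun x : ℝ => (x : ℂ)) h1
  have hf' : W388.IsNewf N 2 f w := by
    refine ⟨hf.one, hf.real, hf.mul, ?_, hw, ?_⟩
    · intro p j hp
      have h1 := hf.pow p j hp
      unfold coef at h1
      rw [h1]
      norm_num
    · intro τ τ' h
      rw [hfr τ τ' h]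
      congr 1
      have hI : Complex.I ^ 2 = -1 := Complex.I_sq
      have : (((Real.sqrt N : ℝ) : ℂ) * (τ : ℂ) / Complex.I) ^ (2 : ℤ) = -((N : ℂ) * (τ : ℂ) ^ 2) := by
        rw [zpow_ofNat, div_pow, mul_pow, hsq, hI]
        ring
      rw [this]
      ring
  have hH := W388.heckeSeq_lamf hf'
  have hR := W388.p_rs N 2 (by norm_num) f w hf'
  have hlam : ∀ p : ℕ, p.Prime → |W388.lamf f p| * Real.sqrt p = ‖coef f p‖ := by
    intro p hp
    have hp0 : (0 : ℝ) < p := by exact_mod_cast hp.pos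
    have hc : coef f p = ((coef f p).re : ℂ) := by
      apply Complex.ext
      · simp
      · simp [hf.real p]
    unfold W388.lamf
    rw [hc, Complex.norm_real, Real.norm_eq_abs, abs_div]
    have e : (((2 : ℤ) : ℝ) - 1) / 2 = 1 / 2 := by norm_num
    rw [e, ← Real.sqrt_eq_rpow, abs_of_pos (Real.sqrt_pos.2 hp0)]
    have : Real.sqrt p ≠ 0 := (Real.sqrt_pos.2 hp0).ne'
    unfold coef
    field_simp
  have hcS := KS6_29.HS.vM_cS_le hH (fun p hp hd => by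
      have h1 := hlam p hp
      have h2 := hf.good p hp hd
      have hp0 : (0 : ℝ) < Real.sqrt p := Real.sqrt_pos.2 (by exact_mod_cast hp.pos)
      rw [← h1] at h2
      exact le_of_mul_le_mul_right h2 hp0) (fun p hp hd => by
      have h1 := hlam p hp
      have h2 := hf.bad p hp hd
      have hp1 : (1 : ℝ) ≤ Real.sqrt p := Real.one_le_sqrt.2 (by exact_mod_cast hp.one_lt.le)
      rw [← h1] at h2
      nlinarith [abs_nonneg (W388.lamf f p)])
  obtain ⟨Λ, hΛ, hser, hfe, hz⟩ := H N 2 le_rfl f w hf' hcS q χ hχ hq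
  have hzero : ∀ t : ℝ, 0 < t → t ≤ t₁ → ∀ s : ℂ, heat Λ t s = 0 →
      1 + δ ≤ t * Real.log (N * q ^ 2 * (2 + |s.im|) ^ 2) →
      s.re = 1 ∧ deriv (heat Λ t) s ≠ 0 := by
    intro t ht ht1 s h0 hl
    obtain ⟨r1, r2⟩ := hz t ht ht1 s (heat_zero ht h0) (by
      have h1 : min δ 1 ≤ δ := min_le_left _ _
      have e : (((2 : ℤ) : ℝ) / 2 + 1 + |s.im|) = 2 + |s.im| := by norm_num
      rw [e]
      linarith)
    refine ⟨by rw [r1]; norm_num, heat_deriv ht r2⟩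
  refine ⟨Λ, ⟨hΛ, ?_⟩, ?_, hzero, ?_⟩
  · intro s hs
    obtain ⟨A1, hA1, d1, d2, d3⟩ := W388.p_dir N hNpos (W388.lamf f) hH hR
    obtain ⟨g1, g2, g3, g4, g5, g6⟩ := d3 q χ
      (fun s => ∑' n : ℕ, χ (n : ZMod q) * (W388.lamf f n : ℂ) * (n : ℂ) ^ (-s)) (fun _ _ => rfl)
    have hre : (s - 1 / 2 : ℂ).re = s.re - 1 / 2 := by simp
    have h6 := g6 (s - 1 / 2) (by rw [hre]; linarith)
    refine ⟨_, (congrArg (fun g => HasProd g _) (funext fun p : Nat.Primes =>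
      (factor_shift f hf.real q χ s p p.2).symm)).mp h6, ?_⟩
    rw [hser s (by norm_num; linarith)]
    congr 1
    refine tsum_congr fun n => ?_
    rcases Nat.eq_zero_or_pos n with rfl | hn
    · rw [W388.coeff_zero f, hH.zero]; simp
    · have hn0 : (n : ℂ) ≠ 0 := by exact_mod_cast hn.ne'
      rw [W388.lamf_eq hf' n hn.ne']
      have : (n : ℂ) ^ (-(s - 1 / 2)) = (n : ℂ) ^ (1 / 2 : ℂ) * (n : ℂ) ^ (-s) := by
        rw [← Complex.cpow_add _ _ hn0]
        congr 1; ring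
      rw [this]
      have e : (((2 : ℤ) : ℂ) - 1) / 2 = (1 / 2 : ℂ) := by norm_num
      rw [e]
      ring
  · obtain ⟨w0, hw0, hfe0⟩ := hfe
    refine ⟨w0, hw0, fun s => ?_⟩
    have := hfe0 s
    simpa using this
  · intro hNq ht
    have hNq' : (1 : ℝ) < N * q ^ 2 := by exact_mod_cast hNq
    have hlog : 0 < Real.log (N * q ^ 2) := Real.log_pos hNq'
    set t : ℝ := (1 + δ) / Real.log (N * q ^ 2) with htdef
    have ht0 : 0 < t := by positivity
    have hall : ∀ s : ℂ, heat Λ t s = 0 → s.re = 1 ∧ deriv (heat Λ t) s ≠ 0 := by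
      intro s hs
      refine hzero t ht0 ht s hs ?_
      have h1 : Real.log (N * q ^ 2) ≤ Real.log (N * q ^ 2 * (2 + |s.im|) ^ 2) := by
        apply Real.log_le_log (by linarith)
        have h2 : (1 : ℝ) ≤ (2 + |s.im|) ^ 2 := by nlinarith [abs_nonneg s.im]
        nlinarith
      calc 1 + δ = t * Real.log (N * q ^ 2) := by rw [htdef]; field_simp
        _ ≤ _ := mul_le_mul_of_nonneg_left h1 ht0.le
    refine ⟨hall, ?_⟩
    exact csInf_le ⟨0, fun x hx => hx.1.le⟩ ⟨ht0, fun s hs => (hall s hs).1⟩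

end Pool.Agent.Results.MP_553913_nt.HeatFlowConductor
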