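import Pool.Agent.KS6_85.LZ.LogD
import Pool.Graph.R_seed8.Y812.QTN11
import Pool.Graph.R_seed8.Y812.TM.Four

/-!
# Simple zeros on the critical line, at the scale of the mean spacing, for the twists of an elliptic
# curve

`E : y² = x³ + a x + b` is any elliptic curve over `ℚ`, `N` is its conductor and `f ∈ S_2(Γ₀(N))` is
the newform attached to `E` by the modularity theorem (Wiles, Taylor-Wiles,
Breuil-Conrad-Diamond-Taylor).  For the quadratic twists of the curves `X₀(11)` and `X₀(14)`,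
infinitely many curves without complex multiplication, the existence of the newform is proved here,
with no hypothesis.  `χ` runs over all primitive Dirichlet characters of conductor `q` prime to `N`.

Near a fixed height `t` the mean spacing of the zeros of `L(E ⊗ χ, s)` is `π / log q`.  Fix `t`, for
instance `t = 0`, and consider the zeros with ordinate in `[t - κ / log X, t + κ / log X]`, where
`X < q` and `log q / log X` is close to `1`: for large `κ` there are `2 κ / π` of them for almost all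
`χ`, and on average over `χ` at least `67.25 %` of them are simple and lie on the critical line
`Re s = 1`.  At least `67.25 %` of the twists have a simple zero on the critical line in this window,
in fact at least `δ κ` of them.  No hypothesis on the zeros is made.

The proof is a pair correlation argument in the window: the explicit formula localised by a compactly
supported test function at the scale `1 / log q`, a quadratic inequality which gives weight at most one
to the simple zeros on the line and at least two to the other ones (reproducing kernel of the Paley-Wiener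
space with the extremal weight of Montgomery and Taylor), the large sieve inequality for primitive
characters with the optimal constant and the Rankin-Selberg asymptotics (library `H385`, `W388`) for the
mean square of the sums over the primes up to `X ^ (2 - ε)`, and, to control the zeros off the line, the
density theorem without loss `TwistsDensityNoLoss`, in the form of an exponential moment.
-/

open Complex UpperHalfPlane MatrixGroups CongruenceSubgroup

set_option autoImplicit false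

namespace Pool.Agent.Results.MP_553913_nt.SimpleZerosMicroscopic

/-- The coefficient `a_p` of `E : y² = x³ + a x + b` at a prime `p ∤ 2 (4a³ + 27b²)`: `p` minus the
number of pairs `(x, y)` modulo `p` with `y² = x³ + a x + b`. -/
noncomputable def ap (a b : ℤ) (p : ℕ) : ℤ :=
  (p : ℤ) - Nat.card {x : ZMod p × ZMod p //
    x.2 ^ 2 = x.1 ^ 3 + (a : ZMod p) * x.1 + (b : ZMod p)}

/-- The `n`-th Fourier coefficient of `f`. -/
noncomputable def coef {N : ℕ} (f : CuspForm (Gamma0 N : Subgroup (GL (Fin 2) ℝ)) 2) (n : ℕ) : ℂ :=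
  (qExpansion 1 f).coeff n

/-- `f ∈ S_2(Γ₀(N))` is the newform of the elliptic curve `E : y² = x³ + a x + b`: the Fourier
coefficients `c(n)` of `f` are real with `c(1) = 1`, they satisfy the Hecke relations
`c(mn) = c(m) c(n)` for coprime `m`, `n` and `c(p^(j+2)) = c(p) c(p^(j+1)) - p c(p^j)` (without the
last term if `p ∣ N`), `f` is an eigenfunction of the Fricke involution:
`f(-1/(Nτ)) = -w N τ² f(τ)` with `w = ±1`, and `c(p) = a_p(E)` for all primes
`p ∤ 2 (4a³ + 27b²)`. -/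
structure IsFormOf (a b : ℤ) (N : ℕ) (f : CuspForm (Gamma0 N : Subgroup (GL (Fin 2) ℝ)) 2) :
    Prop where
  one : coef f 1 = 1
  real : ∀ n, (coef f n).im = 0
  mul : ∀ m n : ℕ, Nat.Coprime m n → coef f (m * n) = coef f m * coef f n
  pow : ∀ p j : ℕ, p.Prime → coef f (p ^ (j + 2)) = coef f p * coef f (p ^ (j + 1)) -
      (if p ∣ N then 0 else (p : ℂ) * coef f (p ^ j))
  fricke : ∃ w : ℝ, (w = 1 ∨ w = -1) ∧ ∀ τ τ' : ℍ, (τ' : ℂ) * ((N : ℂ) * (τ : ℂ)) = -1 →
    f τ' = -(w : ℂ) * (N : ℂ) * (τ : ℂ) ^ 2 * f τ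
  points : ∀ p : ℕ, p.Prime → ¬ (p : ℤ) ∣ 2 * (4 * a ^ 3 + 27 * b ^ 2) → coef f p = (ap a b p : ℂ)

/-- The Euler factor of `L(E ⊗ χ, s)` at the prime `p`:
`(1 - χ(p) c(p) p^(-s) + χ(p)² p^(1-2s))⁻¹` for `p ∤ N`, `(1 - χ(p) c(p) p^(-s))⁻¹` for `p ∣ N`. -/
noncomputable def factor {N : ℕ} (f : CuspForm (Gamma0 N : Subgroup (GL (Fin 2) ℝ)) 2) (q : ℕ)
    (χ : DirichletCharacter ℂ q) (s : ℂ) (p : ℕ) : ℂ :=
  (1 - χ (p : ZMod q) * coef f p * (p : ℂ) ^ (-s) +
    (if p ∣ N then 0 else χ (p : ZMod q) ^ 2 * (p : ℂ) ^ (1 - 2 * s)))⁻¹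

/-- The zeros of `F` in the closed critical strip `1/2 ≤ Re s ≤ 3/2` with ordinate in
`[t - h, t + h]`. -/
def window (F : ℂ → ℂ) (t h : ℝ) : Set ℂ :=
  {s : ℂ | 1 / 2 ≤ s.re ∧ s.re ≤ 3 / 2 ∧ |s.im - t| ≤ h ∧ F s = 0}

/-- Their number, counted with multiplicity. -/
noncomputable def zeros (F : ℂ → ℂ) (t h : ℝ) : ℕ := ∑ᶠ s ∈ window F t h, analyticOrderNatAt F s

/-- Their number, counted without multiplicity. -/
noncomputable def distinct (F : ℂ → ℂ) (t h : ℝ) : ℕ := (window F t h).ncard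

/-- The number of simple zeros of `F` on the critical line `Re s = 1` with ordinate in
`[t - h, t + h]`. -/
noncomputable def simple (F : ℂ → ℂ) (t h : ℝ) : ℕ :=
  {s : ℂ | s.re = 1 ∧ |s.im - t| ≤ h ∧ F s = 0 ∧ deriv F s ≠ 0}.ncard

/-- The sum of `q ^ (-2) * g q χ` over all primitive Dirichlet characters `χ` of conductor `q` prime to
`N`, `X < q ≤ Y`. -/
noncomputable def avg (N X Y : ℕ) (g : (q : ℕ) → DirichletCharacter ℂ q → ℝ) : ℝ :=
  ∑ q ∈ (Finset.Ioc X Y).filter (fun q => Nat.Coprime q N), (1 / (q : ℝ) ^ 2) *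
    ∑ᶠ χ : {χ : DirichletCharacter ℂ q // χ.IsPrimitive}, g q χ

/-! ### Translation from the analytic normalisation -/

theorem order_shift (L : ℂ → ℂ) (s : ℂ) :
    analyticOrderNatAt (fun z => L (z - 1 / 2)) (s + 1 / 2) = analyticOrderNatAt L s := by
  have hg : AnalyticAt ℂ (fun z : ℂ => z - 1 / 2) (s + 1 / 2) := by fun_prop
  have hd : deriv (fun z : ℂ => z - 1 / 2) (s + 1 / 2) ≠ 0 := by
    simp
  have h := analyticOrderAt_comp_of_deriv_ne_zero (f := L) hg hd
  unfold analyticOrderNatAt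
  have h2 : (fun z : ℂ => L (z - 1 / 2)) = L ∘ (fun z : ℂ => z - 1 / 2) := rfl
  rw [h2, h]
  norm_num

theorem inj_shift : Function.Injective (fun s : ℂ => s + 1 / 2) := fun a b h => by
  simpa using h

theorem window_shift (L : ℂ → ℂ) (t h : ℝ) :
    window (fun z => L (z - 1 / 2)) t h = (fun s : ℂ => s + 1 / 2) '' KS6_85.LZ.wz L t h := by
  ext s
  unfold window KS6_85.LZ.wz
  constructor
  · rintro ⟨h1, h2, h3, h4⟩
    refine ⟨s - 1 / 2, ⟨?_, ?_, ?_, h4⟩, by ring⟩
    · simp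
      linarith
    · simp
      linarith
    · simpa using h3
  · rintro ⟨u, ⟨h1, h2, h3, h4⟩, rfl⟩
    refine ⟨?_, ?_, ?_, ?_⟩
    · simp
      linarith
    · simp
      linarith
    · simpa using h3
    · have : u + 1 / 2 - 1 / 2 = u := by ring
      simp only [this]
      exact h4

theorem zeros_shift (L : ℂ → ℂ) (t h : ℝ) :
    zeros (fun z => L (z - 1 / 2)) t h = KS6_85.LZ.NI L t h := by
  unfold zeros KS6_85.LZ.NI
  rw [window_shift, finsum_mem_image (inj_shift.injOn)]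
  refine finsum_congr fun s => finsum_congr fun _ => ?_
  exact order_shift L s

theorem distinct_shift (L : ℂ → ℂ) (t h : ℝ) :
    distinct (fun z => L (z - 1 / 2)) t h = KS6_85.LZ.ND L t h := by
  unfold distinct KS6_85.LZ.ND
  rw [window_shift, Set.ncard_image_of_injective _ inj_shift]

theorem order_one {L : ℂ → ℂ} (hL : Differentiable ℂ L) {s : ℂ} (h0 : L s = 0) :
    H370.mult L s = 1 ↔ deriv L s ≠ 0 := by
  have ha : AnalyticAt ℂ L s := hL.analyticAt s
  have h1 := ha.analyticOrderAt_deriv_add_one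
  have e : (fun z => L z - L s) = L := by
    funext z
    rw [h0, sub_zero]
  rw [e] at h1
  have hd : AnalyticAt ℂ (deriv L) s := ha.deriv
  unfold H370.mult analyticOrderNatAt
  rw [← h1, ← hd.analyticOrderAt_eq_zero]
  constructor
  · intro h2
    rcases eq_or_ne (analyticOrderAt (deriv L) s) ⊤ with h3 | h3
    · rw [h3] at h2
      simp at h2
    · obtain ⟨k, hk⟩ := ENat.ne_top_iff_exists.1 h3
      rw [← hk] at h2 ⊢
      have : ((k : ℕ∞) + 1).toNat = k + 1 := by
        have : ((k : ℕ∞) + 1) = ((k + 1 : ℕ) : ℕ∞) := by push_cast; rfl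
        rw [this, ENat.toNat_natCast]
      rw [this] at h2
      have : k = 0 := by omega
      rw [this]
      rfl
  · intro h2
    rw [h2]
    simp

theorem simple_shift {L : ℂ → ℂ} (hL : Differentiable ℂ L) (t h : ℝ) :
    simple (fun z => L (z - 1 / 2)) t h = KS6_85.LZ.NS L t h := by
  unfold simple KS6_85.LZ.NS
  have hd : ∀ s : ℂ, deriv (fun z => L (z - 1 / 2)) s = deriv L (s - 1 / 2) := fun s =>
    deriv_comp_sub_const (f := L) (a := 1 / 2) (x := s)
  have hset : {s : ℂ | s.re = 1 ∧ |s.im - t| ≤ h ∧ L (s - 1 / 2) = 0 ∧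
      deriv (fun z => L (z - 1 / 2)) s ≠ 0} = (fun s : ℂ => s + 1 / 2) ''
      {s : ℂ | s.re = 1 / 2 ∧ |s.im - t| ≤ h ∧ L s = 0 ∧ H370.mult L s = 1} := by
    ext s
    constructor
    · rintro ⟨h1, h2, h3, h4⟩
      rw [hd] at h4
      refine ⟨s - 1 / 2, ⟨?_, ?_, h3, (order_one hL h3).2 h4⟩, by ring⟩
      · simp
        linarith
      · simpa using h2
    · rintro ⟨u, ⟨h1, h2, h3, h4⟩, rfl⟩
      have e : u + 1 / 2 - 1 / 2 = u := by ring
      refine ⟨?_, ?_, ?_, ?_⟩
      · simp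
        linarith
      · simpa using h2
      · simp only [e]
        exact h3
      · rw [hd]
        simp only [e]
        exact (order_one hL h3).1 h4
  rw [hset, Set.ncard_image_of_injective _ inj_shift]

theorem lamf_eq {N : ℕ} (f : CuspForm (Gamma0 N : Subgroup (GL (Fin 2) ℝ)) 2)
    (hr : ∀ n, (coef f n).im = 0) (p : ℕ) (hp : p.Prime) (s : ℂ) :
    (W388.lamf f p : ℂ) * (p : ℂ) ^ (-(s - 1 / 2)) = coef f p * (p : ℂ) ^ (-s) := by
  have hp0 : (0 : ℝ) < p := by exact_mod_cast hp.pos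
  have hpc : (p : ℂ) ≠ 0 := by exact_mod_cast hp.ne_zero
  have hc : coef f p = ((coef f p).re : ℂ) := by
    apply Complex.ext
    · simp
    · simp [hr p]
  unfold W388.lamf
  rw [hc]
  unfold coef
  rw [show -(s - 1 / 2) = -s + (1 / 2 : ℂ) by ring, Complex.cpow_add _ _ hpc]
  push_cast
  rw [Complex.ofReal_cpow hp0.le]
  have e : ((((2 : ℝ) - 1) / 2 : ℝ) : ℂ) = (1 / 2 : ℂ) := by push_cast; norm_num
  rw [e]
  have hne : (p : ℂ) ^ (1 / 2 : ℂ) ≠ 0 := by
    rw [Ne, Complex.cpow_eq_zero_iff]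
    exact fun h => hpc h.1
  rw [Complex.ofReal_natCast]
  field_simp

theorem factor_shift {N : ℕ} (f : CuspForm (Gamma0 N : Subgroup (GL (Fin 2) ℝ)) 2)
    (hr : ∀ n, (coef f n).im = 0) (q : ℕ)
    (χ : DirichletCharacter ℂ q) (s : ℂ) (p : ℕ) (hp : p.Prime) :
    factor f q χ s p = (1 - χ (p : ZMod q) * (W388.lamf f p : ℂ) * (p : ℂ) ^ (-(s - 1 / 2)) +
      (if p ∣ N then 0 else χ (p : ZMod q) ^ 2 * (p : ℂ) ^ (-2 * (s - 1 / 2))))⁻¹ := by
  unfold factor
  rw [mul_assoc (χ (p : ZMod q)) (W388.lamf f p : ℂ), lamf_eq f hr p hp s, ← mul_assoc,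
    show (-2 * (s - 1 / 2) : ℂ) = 1 - 2 * s by ring]

theorem avg_eq (N X Y : ℕ) (g : (q : ℕ) → DirichletCharacter ℂ q → ℝ) :
    avg N X Y g = H385.primFamM N X Y g := rfl

theorem avg_congr (N X Y : ℕ) {g g' : (q : ℕ) → DirichletCharacter ℂ q → ℝ}
    (h : ∀ (q : ℕ) (χ : DirichletCharacter ℂ q), 1 ≤ q → Nat.Coprime q N → χ.IsPrimitive →
      g q χ = g' q χ) : avg N X Y g = H385.primFamM N X Y g' := by
  rw [avg_eq, H385.primFamM_eq, H385.primFamM_eq]
  refine Finset.sum_congr rfl fun p hp => ?_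
  obtain ⟨h1, h2, h3, h4⟩ := (H385.mem_primSetM N X Y p).1 hp
  rw [h p.1 p.2 (by omega) h3 h4]

/-- The curves for which the modularity is proved in the library. -/
theorem isFormOf_of {a b : ℤ} {N : ℕ} {f : CuspForm (Gamma0 N : Subgroup (GL (Fin 2) ℝ)) 2}
    (h : Pool.Agent.Y19.QT.IsFormOf a b N f) : IsFormOf a b N f where
  one := h.one
  real := h.real
  mul := h.mul
  pow := h.pow
  fricke := h.fricke
  points := fun p hp hpd => (h.points p hp hpd).2

/-- **Main theorem.** (1) All quadratic twists of `X₀(11) : y² = x³ - 13392 x - 1080432` and of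
`X₀(14) : y² = x³ + 5805 x - 285714` have a newform.

(2) There is `δ > 0` with the following property. Let `E : y² = x³ + a x + b` be an elliptic curve over
`ℚ` and let `f ∈ S_2(Γ₀(N))` be its newform.  For every primitive Dirichlet character `χ` of conductor
`q` prime to `N` there is an entire function `L q χ` which for `Re s > 3/2` is the Euler product of
`L(E ⊗ χ, s)`, and:

(A) For all `T ≥ 0`, `ε > 0` there is `κ₀` such that for all `κ ≥ κ₀` there are `K`, `η > 0`, `X₀` such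
that for all `X ≥ X₀`, `K X ≤ Y ≤ X ^ (1 + η)` and `|t| ≤ T`, on average over the primitive characters of
conductor `q` prime to `N`, `X < q ≤ Y`, with the weights `q ^ (-2)`, and with `h = κ / log X`:

* the mean of `|zeros (L q χ) t h - 2 κ / π|` is at most `ε (2 κ / π)`;
* the mean of `simple (L q χ) t h` is at least `(0.6725 + δ) (2 κ / π)`;
* the proportion of the `χ` with `simple (L q χ) t h ≥ δ κ` is at least `0.6725 + δ`;
* the mean of `distinct (L q χ) t h` is at least `(0.83625 + δ) (2 κ / π)`.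

(B) For all `T ≥ 0` and all `n` there are `κ` and `Q₀` such that for all `Q ≥ Q₀` and `|t| ≤ T`, for a
proportion at least `0.6725`, with the weights `q ^ (-2)`, of the primitive characters of conductor `q`
prime to `N`, `2 ≤ q ≤ Q`, the function `L q χ` has at least `n` simple zeros on the critical line
`Re s = 1` with ordinate in `[t - κ / log q, t + κ / log q]`. -/
theorem result :
    (∀ g : ℤ, g ≠ 0 →
      (∃ (N : ℕ) (_ : NeZero N) (f : CuspForm (Gamma0 N : Subgroup (GL (Fin 2) ℝ)) 2),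
        IsFormOf (-13392 * g ^ 2) (-1080432 * g ^ 3) N f) ∧
      (∃ (N : ℕ) (_ : NeZero N) (f : CuspForm (Gamma0 N : Subgroup (GL (Fin 2) ℝ)) 2),
        IsFormOf (5805 * g ^ 2) (-285714 * g ^ 3) N f)) ∧
    ∃ δ : ℝ, 0 < δ ∧ ∀ (a b : ℤ) (_hE : 4 * a ^ 3 + 27 * b ^ 2 ≠ 0) (N : ℕ) [NeZero N]
      (f : CuspForm (Gamma0 N : Subgroup (GL (Fin 2) ℝ)) 2), IsFormOf a b N f →
    ∃ L : (q : ℕ) → DirichletCharacter ℂ q → ℂ → ℂ,
      (∀ (q : ℕ) (χ : DirichletCharacter ℂ q), 1 ≤ q → Nat.Coprime q N → χ.IsPrimitive →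
        Differentiable ℂ (L q χ) ∧ ∀ s : ℂ, 3 / 2 < s.re →
          HasProd (fun p : Nat.Primes => factor f q χ s p) (L q χ s)) ∧
      (∀ T ε : ℝ, 0 ≤ T → 0 < ε → ∃ κ₀ : ℝ, ∀ κ : ℝ, κ₀ ≤ κ →
        ∃ K η X₀ : ℝ, 1 ≤ K ∧ 0 < η ∧ ∀ X Y : ℕ, X₀ ≤ X → K * X ≤ Y →
          (Y : ℝ) ≤ (X : ℝ) ^ (1 + η) → 0 < avg N X Y (fun _ _ => 1) ∧
          ∀ t : ℝ, |t| ≤ T →
            avg N X Y (fun q χ => |(zeros (L q χ) t (κ / Real.log X) : ℝ) - 2 * κ / Real.pi|) ≤
              ε * (2 * κ / Real.pi) * avg N X Y (fun _ _ => 1) ∧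
            (0.6725 + δ) * (2 * κ / Real.pi) * avg N X Y (fun _ _ => 1) ≤
              avg N X Y (fun q χ => (simple (L q χ) t (κ / Real.log X) : ℝ)) ∧
            (0.6725 + δ) * avg N X Y (fun _ _ => 1) ≤
              avg N X Y (fun q χ =>
                if δ * κ ≤ (simple (L q χ) t (κ / Real.log X) : ℝ) then (1 : ℝ) else 0) ∧
            (0.83625 + δ) * (2 * κ / Real.pi) * avg N X Y (fun _ _ => 1) ≤
              avg N X Y (fun q χ => (distinct (L q χ) t (κ / Real.log X) : ℝ))) ∧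
      (∀ (T : ℝ) (n : ℕ), 0 ≤ T → ∃ (κ : ℝ) (Q₀ : ℕ), ∀ Q : ℕ, Q₀ ≤ Q → ∀ t : ℝ, |t| ≤ T →
        0.6725 * avg N 1 Q (fun _ _ => 1) ≤
          avg N 1 Q (fun q χ => if n ≤ simple (L q χ) t (κ / Real.log q) then (1 : ℝ) else 0)) := by
  refine ⟨fun g hg => ⟨?_, ?_⟩, ?_⟩
  · obtain ⟨N, f, hf⟩ := Pool.Agent.Y812.QTN11.twists11 g hg
    exact ⟨N, ⟨hf.pos.ne'⟩, f, isFormOf_of hf⟩
  · obtain ⟨N, f, hf⟩ := Pool.Agent.Y812.TM.twists14 g hg
    exact ⟨N, ⟨hf.pos.ne'⟩, f, isFormOf_of hf⟩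
  obtain ⟨δ, hδ0, hδ1, hlow⟩ := KS6_85.LZ.low_abs
  refine ⟨δ, hδ0, ?_⟩
  intro a b _hE N _ f hf
  obtain ⟨w, hw, hfr⟩ := hf.fricke
  have hN0 : (0 : ℝ) ≤ (N : ℝ) := Nat.cast_nonneg N
  have hsq : ((Real.sqrt N : ℝ) : ℂ) ^ 2 = (N : ℂ) := by
    have h1 : (Real.sqrt N) ^ 2 = (N : ℝ) := Real.sq_sqrt hN0
    exact_mod_cast congrArg (fun x : ℝ => (x : ℂ)) h1
  have hf' : W388.IsNewf N 2 f w := by
    refine ⟨hf.one, hf.real, hf.mul, ?_, hw, ?_⟩
    · intro p j hp
      have h1 := hf.pow p j hp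
      unfold coef at h1
      rw [h1]
      norm_num
    · intro τ τ' h
      rw [hfr τ τ' h]
      congr 1
      have hI : Complex.I ^ 2 = -1 := Complex.I_sq
      have : (((Real.sqrt N : ℝ) : ℂ) * (τ : ℂ) / Complex.I) ^ (2 : ℤ) = -((N : ℂ) * (τ : ℂ) ^ 2) := by
        rw [zpow_ofNat, div_pow, mul_pow, hsq, hI]
        ring
      rw [this]
      ring
  obtain ⟨L, A, hA, hFo, hFm, hsel, hsm, hL, hgood⟩ := KS6_85.LZ.newf_X hf'
  have hD : KS6_85.LZ.TwD N L _ A :=
    ⟨NeZero.ne N, hA, hFo, hFm, hsel, hsm, hgood⟩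
  have hsimp : ∀ (q : ℕ) (χ : DirichletCharacter ℂ q), 1 ≤ q → Nat.Coprime q N → χ.IsPrimitive →
      ∀ t h : ℝ, simple (fun s => L q χ (s - 1 / 2)) t h = KS6_85.LZ.NS (L q χ) t h :=
    fun q χ h1 h2 h3 t h => simple_shift (hL q χ h1 h2 h3).1 t h
  refine ⟨fun q χ s => L q χ (s - 1 / 2), ?_, ?_, ?_⟩
  · intro q χ hq hqM hχ
    obtain ⟨g1, g2⟩ := hL q χ hq hqM hχ
    refine ⟨g1.comp (by fun_prop), fun s hs => ?_⟩
    have g3 := g2 (s - 1 / 2) (by
      have : (s - 1 / 2 : ℂ).re = s.re - 1 / 2 := by simp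
      rw [this]; linarith)
    refine (congrArg (fun g => HasProd g (L q χ (s - 1 / 2))) (funext fun p => ?_)).mpr g3
    exact factor_shift f hf.real q χ s p p.2
  · intro T ε hT hε
    obtain ⟨κ₀, -, h1⟩ := hlow hD T hT ε hε
    refine ⟨κ₀, fun κ hκ => ?_⟩
    obtain ⟨K, η, X₀, hK, hη, -, -, h2⟩ := h1 κ hκ
    refine ⟨K, η, X₀, hK, hη, fun X Y h3 h4 h5 => ?_⟩
    obtain ⟨hW, h6⟩ := h2 X Y h3 h4 h5
    refine ⟨hW, fun t ht => ?_⟩
    obtain ⟨g1, g2, g3, g4⟩ := h6 t ht
    have e0 : avg N X Y (fun _ _ => 1) = H385.WM N X Y := rfl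
    rw [e0]
    refine ⟨?_, ?_, ?_, ?_⟩
    · rw [avg_congr N X Y (g' := fun q χ => |(KS6_85.LZ.NI (L q χ) t (κ / Real.log X) : ℝ) -
        2 * κ / Real.pi|) (fun q χ _ _ _ => by rw [zeros_shift])]
      exact g1
    · rw [avg_congr N X Y (g' := fun q χ => (KS6_85.LZ.NS (L q χ) t (κ / Real.log X) : ℝ))
        (fun q χ q1 q2 q3 => by rw [hsimp q χ q1 q2 q3])]
      exact g2
    · rw [avg_congr N X Y (g' := fun q χ =>
        if δ * κ ≤ (KS6_85.LZ.NS (L q χ) t (κ / Real.log X) : ℝ) then (1 : ℝ) else 0)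
        (fun q χ q1 q2 q3 => by rw [hsimp q χ q1 q2 q3])]
      exact g3
    · rw [avg_congr N X Y (g' := fun q χ => (KS6_85.LZ.ND (L q χ) t (κ / Real.log X) : ℝ))
        (fun q χ _ _ _ => by rw [distinct_shift])]
      exact g4
  · intro T n hT
    obtain ⟨κ, Q₀, -, h1⟩ := KS6_85.LZ.low_log hD T hT n
    refine ⟨κ, Q₀, fun Q hQ t ht => ?_⟩
    have h2 := h1 Q hQ t ht
    have e0 : avg N 1 Q (fun _ _ => 1) = H385.WM N 1 Q := rfl
    rw [e0, avg_congr N 1 Q (g' := fun q χ =>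
        if n ≤ KS6_85.LZ.NS (L q χ) t (κ / Real.log q) then (1 : ℝ) else 0)
        (fun q χ q1 q2 q3 => by rw [hsimp q χ q1 q2 q3])]
    exact h2

end Pool.Agent.Results.MP_553913_nt.SimpleZerosMicroscopic
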