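import Pool.Agent.KS6_85.SD.Mom
import Pool.Graph.R_seed8.Y812.QTN11
import Pool.Graph.R_seed8.Y812.TM.Four

/-!
# A density theorem of Selberg type, without loss, for the twists of an elliptic curve L-function

`E : y² = x³ + a x + b` is any elliptic curve over `ℚ`, `N` is its conductor and `f ∈ S_2(Γ₀(N))` is
the newform attached to `E` by the modularity theorem (Wiles, Taylor-Wiles,
Breuil-Conrad-Diamond-Taylor).  For the quadratic twists of the curves `X₀(11)` and `X₀(14)`, infinitely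
many curves without complex multiplication, the existence of the newform is proved here, with no
hypothesis.  `χ` runs over all primitive Dirichlet characters of conductor
`q ≤ Q` prime to `N`, about `Q²` of them.  For fixed `t` the mean spacing of the zeros of
`L(E ⊗ χ, s)` near the height `t` is of order `1 / log Q`.  We bound the number of zeros at distance
at least `δ` from the critical line `Re s = 1` and with ordinate in `[t - H, t + H]`, `0 ≤ H ≤ 1`: on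
average over `χ` it is at most `C (2 + |t|)⁸ (1 + H log Q) Q ^ (-δ/40)`, for all `0 ≤ δ ≤ 1/2`.  There
is no factor `log Q` too much: for `δ = φ / log Q` the bound is `C (1 + H log Q) exp (-φ/40)` at every
scale `H`, down to the scale `1 / log Q` of a single zero.

The proof: the mollified mean square of `NH12.BA` (library), to the right of the critical line and in
its neighbourhood; a covering by discs adapted to the distance from the critical line; the number of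
members with a zero in such a disc is bounded by the mean square of the mollified values minus their
limit, and the members with many zeros in a disc by the tail estimate of `NH12.BA`; the functional
equation, and the Rankin-Selberg asymptotics for `f` (library `W388`), which replace any pointwise
bound for the coefficients.
-/

open Complex UpperHalfPlane MatrixGroups CongruenceSubgroup

set_option autoImplicit false

namespace Pool.Agent.Results.MP_553913_nt.TwistsDensityNoLoss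

/-- The coefficient `a_p` of `E : y² = x³ + a x + b` at a prime `p ∤ 2 (4a³ + 27b²)`: `p` minus the
number of pairs `(x, y)` modulo `p` with `y² = x³ + a x + b`. -/
noncomputable def ap (a b : ℤ) (p : ℕ) : ℤ :=
  (p : ℤ) - Nat.card {x : ZMod p × ZMod p //
    x.2 ^ 2 = x.1 ^ 3 + (a : ZMod p) * x.1 + (b : ZMod p)}

/-- The `n`-th Fourier coefficient of `f`. -/
noncomputable def coef {N : ℕ} (f : CuspForm (Gamma0 N : Subgroup (GL (Fin 2) ℝ)) 2) (n : ℕ) : ℂ :=
  (qExpansion 1 f).coeff n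

/-- `f ∈ S_2(Γ₀(N))` is the newform of the elliptic curve `E : y² = x³ + a x + b`: the Fourier
coefficients `c(n)` of `f` are real with `c(1) = 1`, they satisfy the Hecke relations
`c(mn) = c(m) c(n)` for coprime `m`, `n` and `c(p^(j+2)) = c(p) c(p^(j+1)) - p c(p^j)` (without the
last term if `p ∣ N`), `f` is an eigenfunction of the Fricke involution:
`f(-1/(Nτ)) = -w N τ² f(τ)` with `w = ±1`, and `c(p) = a_p(E)` for all primes
`p ∤ 2 (4a³ + 27b²)`. -/
structure IsFormOf (a b : ℤ) (N : ℕ) (f : CuspForm (Gamma0 N : Subgroup (GL (Fin 2) ℝ)) 2) :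
    Prop where
  one : coef f 1 = 1
  real : ∀ n, (coef f n).im = 0
  mul : ∀ m n : ℕ, Nat.Coprime m n → coef f (m * n) = coef f m * coef f n
  pow : ∀ p j : ℕ, p.Prime → coef f (p ^ (j + 2)) = coef f p * coef f (p ^ (j + 1)) -
      (if p ∣ N then 0 else (p : ℂ) * coef f (p ^ j))
  fricke : ∃ w : ℝ, (w = 1 ∨ w = -1) ∧ ∀ τ τ' : ℍ, (τ' : ℂ) * ((N : ℂ) * (τ : ℂ)) = -1 →
    f τ' = -(w : ℂ) * (N : ℂ) * (τ : ℂ) ^ 2 * f τ
  points : ∀ p : ℕ, p.Prime → ¬ (p : ℤ) ∣ 2 * (4 * a ^ 3 + 27 * b ^ 2) → coef f p = (ap a b p : ℂ)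

/-- The Euler factor of `L(E ⊗ χ, s)` at the prime `p`:
`(1 - χ(p) c(p) p^(-s) + χ(p)² p^(1-2s))⁻¹` for `p ∤ N`, `(1 - χ(p) c(p) p^(-s))⁻¹` for `p ∣ N`. -/
noncomputable def factor {N : ℕ} (f : CuspForm (Gamma0 N : Subgroup (GL (Fin 2) ℝ)) 2) (q : ℕ)
    (χ : DirichletCharacter ℂ q) (s : ℂ) (p : ℕ) : ℂ :=
  (1 - χ (p : ZMod q) * coef f p * (p : ℂ) ^ (-s) +
    (if p ∣ N then 0 else χ (p : ZMod q) ^ 2 * (p : ℂ) ^ (1 - 2 * s)))⁻¹

/-- The points of the critical strip `1/2 < Re s < 3/2` at distance at least `δ` from the critical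
line `Re s = 1`, with ordinate in `[t - H, t + H]`. -/
def box (δ t H : ℝ) : Set ℂ :=
  {s : ℂ | 1 / 2 < s.re ∧ s.re < 3 / 2 ∧ δ ≤ |s.re - 1| ∧ |s.im - t| ≤ H}

/-- The number of zeros of `F` in `S`, counted with multiplicity. -/
noncomputable def zeros (F : ℂ → ℂ) (S : Set ℂ) : ℕ :=
  ∑ᶠ s ∈ {s : ℂ | s ∈ S ∧ F s = 0}, analyticOrderNatAt F s

/-- The sum of `X ^ |Re s - 1|` over the zeros `s` of `F` in `S`, counted with multiplicity. -/
noncomputable def moment (F : ℂ → ℂ) (S : Set ℂ) (X : ℝ) : ℝ :=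
  ∑ᶠ s ∈ {s : ℂ | s ∈ S ∧ F s = 0}, (analyticOrderNatAt F s : ℝ) * X ^ |s.re - 1|

/-- The sum of `g q χ` over all primitive Dirichlet characters `χ` of conductor `q` prime to `N`,
`2 ≤ q ≤ Q`. -/
noncomputable def sumq (N Q : ℕ) (g : (q : ℕ) → DirichletCharacter ℂ q → ℝ) : ℝ :=
  ∑ q ∈ (Finset.Icc 2 Q).filter (fun q => Nat.Coprime q N),
    ∑ᶠ χ ∈ {χ : DirichletCharacter ℂ q | χ.IsPrimitive}, g q χ

/-! ### Translation from the analytic normalisation -/

theorem order_shift (L : ℂ → ℂ) (s : ℂ) :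
    analyticOrderNatAt (fun z => L (z - 1 / 2)) (s + 1 / 2) = analyticOrderNatAt L s := by
  have hg : AnalyticAt ℂ (fun z : ℂ => z - 1 / 2) (s + 1 / 2) := by fun_prop
  have hd : deriv (fun z : ℂ => z - 1 / 2) (s + 1 / 2) ≠ 0 := by
    simp
  have h := analyticOrderAt_comp_of_deriv_ne_zero (f := L) hg hd
  unfold analyticOrderNatAt
  have h2 : (fun z : ℂ => L (z - 1 / 2)) = L ∘ (fun z : ℂ => z - 1 / 2) := rfl
  rw [h2, h]
  norm_num

theorem inj_shift : Function.Injective (fun s : ℂ => s + 1 / 2) := fun a b h => by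
  simpa using h

theorem set_shift (L : ℂ → ℂ) {S S' : Set ℂ} (h : ∀ s : ℂ, s + 1 / 2 ∈ S ↔ s ∈ S') :
    {s : ℂ | s ∈ S ∧ L (s - 1 / 2) = 0} = (fun s : ℂ => s + 1 / 2) '' {s : ℂ | s ∈ S' ∧ L s = 0} := by
  ext s
  constructor
  · rintro ⟨h1, h2⟩
    refine ⟨s - 1 / 2, ⟨?_, h2⟩, by ring⟩
    rw [← h]
    convert h1 using 1
    ring
  · rintro ⟨u, ⟨h1, h2⟩, rfl⟩
    refine ⟨(h u).2 h1, ?_⟩
    have : u + 1 / 2 - 1 / 2 = u := by ring
    simp only [this]
    exact h2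

theorem zeros_shift (L : ℂ → ℂ) {S S' : Set ℂ} (h : ∀ s : ℂ, s + 1 / 2 ∈ S ↔ s ∈ S') :
    zeros (fun z => L (z - 1 / 2)) S = KS6_85.SD.nz L S' := by
  unfold zeros KS6_85.SD.nz
  rw [set_shift L h, finsum_mem_image (inj_shift.injOn)]
  refine finsum_congr fun s => finsum_congr fun _ => ?_
  exact order_shift L s

theorem re_shift (s : ℂ) : (s + 1 / 2 : ℂ).re = s.re + 1 / 2 := by simp

theorem im_shift (s : ℂ) : (s + 1 / 2 : ℂ).im = s.im := by simp

theorem mem_box (δ t H : ℝ) (s : ℂ) : s + 1 / 2 ∈ box δ t H ↔ s ∈ KS6_85.SD.reg2 δ t H := by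
  unfold box KS6_85.SD.reg2
  rw [Set.mem_ofPred_eq, Set.mem_ofPred_eq, re_shift, im_shift]
  have e : s.re + 1 / 2 - 1 = s.re - 1 / 2 := by ring
  rw [e]
  constructor
  · rintro ⟨h1, h2, h3, h4⟩
    exact ⟨by linarith, by linarith, h3, h4⟩
  · rintro ⟨h1, h2, h3, h4⟩
    exact ⟨by linarith, by linarith, h3, h4⟩

theorem mem_boxT (δ T : ℝ) (s : ℂ) : s + 1 / 2 ∈ box δ 0 T ↔ s ∈ KS6_85.SD.regT δ T := by
  rw [mem_box]
  unfold KS6_85.SD.reg2 KS6_85.SD.regT
  rw [Set.mem_ofPred_eq, Set.mem_ofPred_eq, sub_zero]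

theorem moment_shift (L : ℂ → ℂ) (Q : ℕ) (t H : ℝ) :
    moment (fun z => L (z - 1 / 2)) (box 0 t H) ((Q : ℝ) ^ (1 / 80 : ℝ)) =
      KS6_85.SD.mz L Q t H := by
  unfold moment KS6_85.SD.mz
  rw [set_shift L (mem_box 0 t H), finsum_mem_image (inj_shift.injOn)]
  refine finsum_congr fun s => finsum_congr fun _ => ?_
  rw [order_shift L s, re_shift, ← Real.rpow_mul (Nat.cast_nonneg Q)]
  congr 2
  have e : s.re + 1 / 2 - 1 = s.re - 1 / 2 := by ring
  rw [e]
  ring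

theorem lamf_eq {N : ℕ} (f : CuspForm (Gamma0 N : Subgroup (GL (Fin 2) ℝ)) 2)
    (hr : ∀ n, (coef f n).im = 0) (p : ℕ) (hp : p.Prime) (s : ℂ) :
    (W388.lamf f p : ℂ) * (p : ℂ) ^ (-(s - 1 / 2)) = coef f p * (p : ℂ) ^ (-s) := by
  have hp0 : (0 : ℝ) < p := by exact_mod_cast hp.pos
  have hpc : (p : ℂ) ≠ 0 := by exact_mod_cast hp.ne_zero
  have hc : coef f p = ((coef f p).re : ℂ) := by
    apply Complex.ext
    · simp
    · simp [hr p]
  unfold W388.lamf
  rw [hc]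
  unfold coef
  rw [show -(s - 1 / 2) = -s + (1 / 2 : ℂ) by ring, Complex.cpow_add _ _ hpc]
  push_cast
  rw [Complex.ofReal_cpow hp0.le]
  have e : ((((2 : ℝ) - 1) / 2 : ℝ) : ℂ) = (1 / 2 : ℂ) := by push_cast; norm_num
  rw [e]
  have hne : (p : ℂ) ^ (1 / 2 : ℂ) ≠ 0 := by
    rw [Ne, Complex.cpow_eq_zero_iff]
    exact fun h => hpc h.1
  rw [Complex.ofReal_natCast]
  field_simp

theorem factor_shift {N : ℕ} (f : CuspForm (Gamma0 N : Subgroup (GL (Fin 2) ℝ)) 2)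
    (hr : ∀ n, (coef f n).im = 0) (q : ℕ)
    (χ : DirichletCharacter ℂ q) (s : ℂ) (p : ℕ) (hp : p.Prime) :
    factor f q χ s p = (1 - χ (p : ZMod q) * (W388.lamf f p : ℂ) * (p : ℂ) ^ (-(s - 1 / 2)) +
      (if p ∣ N then 0 else χ (p : ZMod q) ^ 2 * (p : ℂ) ^ (-2 * (s - 1 / 2))))⁻¹ := by
  unfold factor
  rw [mul_assoc (χ (p : ZMod q)) (W388.lamf f p : ℂ), lamf_eq f hr p hp s, ← mul_assoc,
    show (-2 * (s - 1 / 2) : ℂ) = 1 - 2 * s by ring]

theorem sumq_eq (N Q : ℕ) (g : (q : ℕ) → DirichletCharacter ℂ q → ℝ) :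
    sumq N Q g = ∑ i ∈ R399.TW.idx N Q, g i.1 i.2 := R399.TM.sumq_eq N Q g

/-- The curves for which the modularity is proved in the library. -/
theorem isFormOf_of {a b : ℤ} {N : ℕ} {f : CuspForm (Gamma0 N : Subgroup (GL (Fin 2) ℝ)) 2}
    (h : Pool.Agent.Y19.QT.IsFormOf a b N f) : IsFormOf a b N f where
  one := h.one
  real := h.real
  mul := h.mul
  pow := h.pow
  fricke := h.fricke
  points := fun p hp hpd => (h.points p hp hpd).2

/-- **Main theorem.** (1) All quadratic twists of `X₀(11) : y² = x³ - 13392 x - 1080432` and of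
`X₀(14) : y² = x³ + 5805 x - 285714` have a newform.

(2) Let `E : y² = x³ + a x + b` be an elliptic curve over `ℚ` and let
`f ∈ S_2(Γ₀(N))` be its newform.  For every primitive Dirichlet character `χ` of conductor `q` prime
to `N` there is an entire function `L q χ` which for `Re s > 3/2` is the Euler product of
`L(E ⊗ χ, s)`, and there is a constant `C` (which depends on `E` only) such that for all `Q ≥ 1`:

* for all real `t`, `0 ≤ H ≤ 1`, `0 ≤ δ ≤ 1/2`, the number of zeros in the critical strip, of all the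
  functions `L q χ` with `2 ≤ q ≤ Q`, with ordinate in `[t - H, t + H]` and distance at least `δ` from
  the critical line is at most `C (2 + |t|)⁸ (1 + H log Q) Q ^ (2 - δ/40)`;
* for all `T ≥ 0`, `0 ≤ δ ≤ 1/2`, the number of those with ordinate in `[-T, T]` and distance at
  least `δ` from the critical line is at most `C (2 + T)⁹ (1 + log Q) Q ^ (2 - δ/40)`;
* for all real `t`, `0 ≤ H ≤ 1`, the sum of `Q ^ (|Re ρ - 1| / 80)` over all these zeros `ρ` with
  ordinate in `[t - H, t + H]` is at most `C (2 + |t|)⁸ (1 + H log Q) Q²`.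

All zeros are counted with multiplicity. -/
theorem result :
    (∀ g : ℤ, g ≠ 0 →
      (∃ (N : ℕ) (_ : NeZero N) (f : CuspForm (Gamma0 N : Subgroup (GL (Fin 2) ℝ)) 2),
        IsFormOf (-13392 * g ^ 2) (-1080432 * g ^ 3) N f) ∧
      (∃ (N : ℕ) (_ : NeZero N) (f : CuspForm (Gamma0 N : Subgroup (GL (Fin 2) ℝ)) 2),
        IsFormOf (5805 * g ^ 2) (-285714 * g ^ 3) N f)) ∧
    ∀ (a b : ℤ) (_hE : 4 * a ^ 3 + 27 * b ^ 2 ≠ 0) (N : ℕ) [NeZero N]
      (f : CuspForm (Gamma0 N : Subgroup (GL (Fin 2) ℝ)) 2), IsFormOf a b N f →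
    ∃ L : (q : ℕ) → DirichletCharacter ℂ q → ℂ → ℂ,
      (∀ (q : ℕ) (χ : DirichletCharacter ℂ q), 1 ≤ q → Nat.Coprime q N → χ.IsPrimitive →
        Differentiable ℂ (L q χ) ∧ ∀ s : ℂ, 3 / 2 < s.re →
          HasProd (fun p : Nat.Primes => factor f q χ s p) (L q χ s)) ∧
      ∃ C : ℝ,
        (∀ (Q : ℕ) (t H δ : ℝ), 1 ≤ Q → 0 ≤ H → H ≤ 1 → 0 ≤ δ → δ ≤ 1 / 2 →
          sumq N Q (fun q χ => (zeros (L q χ) (box δ t H) : ℝ)) ≤
            C * (2 + |t|) ^ 8 * (1 + H * Real.log Q) * (Q : ℝ) ^ (2 - δ / 40)) ∧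
        (∀ (Q : ℕ) (T δ : ℝ), 1 ≤ Q → 0 ≤ T → 0 ≤ δ → δ ≤ 1 / 2 →
          sumq N Q (fun q χ => (zeros (L q χ) (box δ 0 T) : ℝ)) ≤
            C * (2 + T) ^ 9 * (1 + Real.log Q) * (Q : ℝ) ^ (2 - δ / 40)) ∧
        (∀ (Q : ℕ) (t H : ℝ), 1 ≤ Q → 0 ≤ H → H ≤ 1 →
          sumq N Q (fun q χ => moment (L q χ) (box 0 t H) ((Q : ℝ) ^ (1 / 80 : ℝ))) ≤
            C * (2 + |t|) ^ 8 * (1 + H * Real.log Q) * (Q : ℝ) ^ 2) := by
  refine ⟨fun g hg => ⟨?_, ?_⟩, ?_⟩
  · obtain ⟨N, f, hf⟩ := Pool.Agent.Y812.QTN11.twists11 g hg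
    exact ⟨N, ⟨hf.pos.ne'⟩, f, isFormOf_of hf⟩
  · obtain ⟨N, f, hf⟩ := Pool.Agent.Y812.TM.twists14 g hg
    exact ⟨N, ⟨hf.pos.ne'⟩, f, isFormOf_of hf⟩
  intro a b _hE N _ f hf
  obtain ⟨w, hw, hfr⟩ := hf.fricke
  have hN0 : (0 : ℝ) ≤ (N : ℝ) := Nat.cast_nonneg N
  have hsq : ((Real.sqrt N : ℝ) : ℂ) ^ 2 = (N : ℂ) := by
    have h1 : (Real.sqrt N) ^ 2 = (N : ℝ) := Real.sq_sqrt hN0
    exact_mod_cast congrArg (fun x : ℝ => (x : ℂ)) h1
  have hf' : W388.IsNewf N 2 f w := by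
    refine ⟨hf.one, hf.real, hf.mul, ?_, hw, ?_⟩
    · intro p j hp
      have h1 := hf.pow p j hp
      unfold coef at h1
      rw [h1]
      norm_num
    · intro τ τ' h
      rw [hfr τ τ' h]
      congr 1
      have hI : Complex.I ^ 2 = -1 := Complex.I_sq
      have : (((Real.sqrt N : ℝ) : ℂ) * (τ : ℂ) / Complex.I) ^ (2 : ℤ) = -((N : ℂ) * (τ : ℂ) ^ 2) := by
        rw [zpow_ofNat, div_pow, mul_pow, hsq, hI]
        ring
      rw [this]
      ring
  obtain ⟨L, hFo, hFm, hL⟩ := KS6_85.SD.newf_fam (by norm_num) hf'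
  have hsym : ∀ (q : ℕ) (χ : DirichletCharacter ℂ q), 2 ≤ q → Nat.Coprime q N → χ.IsPrimitive →
      ∀ s : ℂ, 0 < s.re → s.re < 1 / 2 →
        analyticOrderAt (L q χ) s = analyticOrderAt (L q χ) (1 - (starRingEnd ℂ) s) :=
    fun q χ hq hqN hχ => (hL q χ (by omega) hqN hχ).2.2
  obtain ⟨C₁, hC₁, h1⟩ := KS6_85.SD.dens_two (by norm_num) hFo hFm hsym
  obtain ⟨C₂, hC₂, h2⟩ := KS6_85.SD.dens_T (by norm_num) hFo hFm hsym
  obtain ⟨C₃, hC₃, h3⟩ := KS6_85.SD.dens_mom (by norm_num) hFo hFm hsym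
  refine ⟨fun q χ s => L q χ (s - 1 / 2), ?_, C₁ + C₂ + C₃, ?_, ?_, ?_⟩
  · intro q χ hq hqM hχ
    obtain ⟨g1, g2, -⟩ := hL q χ hq hqM hχ
    refine ⟨g1.comp (by fun_prop), fun s hs => ?_⟩
    have g3 := g2 (s - 1 / 2) (by
      have : (s - 1 / 2 : ℂ).re = s.re - 1 / 2 := by simp
      rw [this]; linarith)
    refine (congrArg (fun g => HasProd g (L q χ (s - 1 / 2))) (funext fun p => ?_)).mpr g3
    exact factor_shift f hf.real q χ s p p.2
  · intro Q t H δ hQ hH0 hH1 hδ0 hδ1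
    have hlq : 0 ≤ Real.log Q := Real.log_nonneg (by exact_mod_cast hQ)
    rw [sumq_eq]
    simp only [zeros_shift _ (mem_box δ t H)]
    refine (h1 Q t H δ hQ hH0 hH1 hδ0 hδ1).trans ?_
    gcongr
    linarith
  · intro Q T δ hQ hT hδ0 hδ1
    have hlq : 0 ≤ Real.log Q := Real.log_nonneg (by exact_mod_cast hQ)
    rw [sumq_eq]
    simp only [zeros_shift _ (mem_boxT δ T)]
    refine (h2 Q T δ hQ hT hδ0 hδ1).trans ?_
    gcongr
    linarith
  · intro Q t H hQ hH0 hH1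
    have hlq : 0 ≤ Real.log Q := Real.log_nonneg (by exact_mod_cast hQ)
    rw [sumq_eq]
    simp only [moment_shift]
    refine (h3 Q t H hQ hH0 hH1).trans ?_
    gcongr
    linarith

end Pool.Agent.Results.MP_553913_nt.TwistsDensityNoLoss
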